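import Pool.Agent.Y315.NL.Stm

/-!
Fourier components of a solution of `φ_xx + φ_yy + V(x) φ = 0` (step FOU of project NL).
-/

set_option autoImplicit false

open MeasureTheory Set Filter Topology
open scoped ContDiff ENNReal

noncomputable section

namespace Pool.Agent.Y454.NL

open Pool.Agent.Y315.NL

/-- differentiation under the integral sign -/
theorem par (F F' : ℝ × ℝ → ℝ) (hF : Continuous F) (hF' : Continuous F')
    (hd : ∀ x t, HasDerivAt (fun s => F (s, t)) (F' (x, t)) x) (a b x : ℝ) :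
    HasDerivAt (fun s => ∫ t in a..b, F (s, t)) (∫ t in a..b, F' (x, t)) x := by
  have hK : IsCompact (Icc (x - 1) (x + 1) ×ˢ uIcc a b) := isCompact_Icc.prod isCompact_uIcc
  obtain ⟨C, hC⟩ := hK.exists_bound_of_continuousOn hF'.continuousOn
  refine (intervalIntegral.hasDerivAt_integral_of_dominated_loc_of_deriv_le
    (F := fun s t => F (s, t)) (F' := fun s t => F' (s, t)) (bound := fun _ => C)
    (s := Icc (x - 1) (x + 1)) (Icc_mem_nhds (by linarith) (by linarith)) ?_ ?_ ?_ ?_ ?_ ?_).2
  · refine Eventually.of_forall fun s => ?_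
    exact (hF.comp (Continuous.prodMk_right s)).aestronglyMeasurable
  · exact (hF.comp (Continuous.prodMk_right x)).intervalIntegrable _ _
  · exact (hF'.comp (Continuous.prodMk_right x)).aestronglyMeasurable
  · refine ae_of_all _ fun t ht s hs => ?_
    exact hC (s, t) ⟨hs, uIoc_subset_uIcc ht⟩
  · exact intervalIntegrable_const
  · refine ae_of_all _ fun t _ s _ => hd s t

theorem hdx {F : ℝ × ℝ → ℝ} (hF : ContDiff ℝ 1 F) (x t : ℝ) :
    HasDerivAt (fun s => F (s, t)) (dx F (x, t)) x := by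
  have h1 : HasFDerivAt F (fderiv ℝ F (x, t)) (x, t) :=
    (hF.differentiable (by norm_num) (x, t)).hasFDerivAt
  have h2 : HasDerivAt (fun s : ℝ => (s, t)) ((1 : ℝ), (0 : ℝ)) x :=
    (hasDerivAt_id x).prodMk (hasDerivAt_const x t)
  exact h1.comp_hasDerivAt x h2

theorem hdy {F : ℝ × ℝ → ℝ} (hF : ContDiff ℝ 1 F) (x t : ℝ) :
    HasDerivAt (fun s => F (x, s)) (dy F (x, t)) t := by
  have h1 : HasFDerivAt F (fderiv ℝ F (x, t)) (x, t) :=
    (hF.differentiable (by norm_num) (x, t)).hasFDerivAt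
  have h2 : HasDerivAt (fun s : ℝ => (x, s)) ((0 : ℝ), (1 : ℝ)) t :=
    (hasDerivAt_const t x).prodMk (hasDerivAt_id t)
  exact h1.comp_hasDerivAt t h2

theorem cdx {F : ℝ × ℝ → ℝ} (hF : ContDiff ℝ 1 F) : Continuous (dx F) :=
  (hF.continuous_fderiv (by norm_num)).clm_apply continuous_const

theorem cdy {F : ℝ × ℝ → ℝ} (hF : ContDiff ℝ 1 F) : Continuous (dy F) :=
  (hF.continuous_fderiv (by norm_num)).clm_apply continuous_const

theorem cdx1 {F : ℝ × ℝ → ℝ} (hF : ContDiff ℝ 2 F) : ContDiff ℝ 1 (dx F) :=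
  (hF.fderiv_right (m := 1) (by norm_num)).clm_apply contDiff_const

theorem cdy1 {F : ℝ × ℝ → ℝ} (hF : ContDiff ℝ 2 F) : ContDiff ℝ 1 (dy F) :=
  (hF.fderiv_right (m := 1) (by norm_num)).clm_apply contDiff_const

theorem dy_per {F : ℝ × ℝ → ℝ} (hF : ContDiff ℝ 1 F) {P : ℝ}
    (hp : ∀ x y, F (x, y + P) = F (x, y)) (x y : ℝ) : dy F (x, y + P) = dy F (x, y) := by
  have h1 := hdy hF x (y + P)
  have h2 : HasDerivAt (fun s => F (x, s + P)) (dy F (x, y + P)) y := by
    have := h1.comp_add_const y P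
    exact this
  have h3 : (fun s => F (x, s + P)) = fun s => F (x, s) := funext fun s => hp x s
  rw [h3] at h2
  exact h2.unique (hdy hF x y)

theorem cc (k : ℕ) (y t : ℝ) :
    HasDerivAt (fun t : ℝ => Real.cos (k * (y - t))) (k * Real.sin (k * (y - t))) t := by
  have h1 : HasDerivAt (fun t : ℝ => (k : ℝ) * (y - t)) ((k : ℝ) * (0 - 1)) t :=
    ((hasDerivAt_const t y).sub (hasDerivAt_id t)).const_mul _
  have h2 := h1.cos
  convert h2 using 1
  ring

theorem ss (k : ℕ) (y t : ℝ) :
    HasDerivAt (fun t : ℝ => k * Real.sin (k * (y - t)))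
      (-((k : ℝ) ^ 2 * Real.cos (k * (y - t)))) t := by
  have h1 : HasDerivAt (fun t : ℝ => (k : ℝ) * (y - t)) ((k : ℝ) * (0 - 1)) t :=
    ((hasDerivAt_const t y).sub (hasDerivAt_id t)).const_mul _
  have h2 := h1.sin.const_mul (k : ℝ)
  have h3 : (k : ℝ) * (Real.cos (k * (y - t)) * (k * (0 - 1))) =
      -((k : ℝ) ^ 2 * Real.cos (k * (y - t))) := by ring
  rw [← h3]
  exact h2

theorem per_cos (k : ℕ) (y : ℝ) :
    Real.cos (k * (y - 2 * Real.pi)) = Real.cos (k * (y - 0)) := by
  have := Real.cos_sub_nat_mul_two_pi (k * y) k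
  rw [sub_zero, mul_sub]
  exact this

theorem per_sin (k : ℕ) (y : ℝ) :
    Real.sin (k * (y - 2 * Real.pi)) = Real.sin (k * (y - 0)) := by
  have := Real.sin_sub_nat_mul_two_pi (k * y) k
  rw [sub_zero, mul_sub]
  exact this

/-- two integrations by parts -/
theorem parts {φ : ℝ × ℝ → ℝ} (hφ : ContDiff ℝ 2 φ)
    (hp : ∀ x y, φ (x, y + 2 * Real.pi) = φ (x, y)) (k : ℕ) (x y : ℝ) :
    ∫ t in (0 : ℝ)..(2 * Real.pi), dy (dy φ) (x, t) * Real.cos (k * (y - t)) =
      -((k : ℝ) ^ 2 * ∫ t in (0 : ℝ)..(2 * Real.pi), φ (x, t) * Real.cos (k * (y - t))) := by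
  have h1 : ContDiff ℝ 1 φ := hφ.of_le (by norm_num)
  have hcos : Continuous (fun t : ℝ => Real.cos (k * (y - t))) := by fun_prop
  have hsin : Continuous (fun t : ℝ => (k : ℝ) * Real.sin (k * (y - t))) := by fun_prop
  have hyc : Continuous (fun t : ℝ => dy φ (x, t)) :=
    (cdy h1).comp (Continuous.prodMk_right x)
  have hyyc : Continuous (fun t : ℝ => dy (dy φ) (x, t)) :=
    (cdy (cdy1 hφ)).comp (Continuous.prodMk_right x)
  have hpc : Continuous (fun t : ℝ => φ (x, t)) :=
    hφ.continuous.comp (Continuous.prodMk_right x)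
  have e1 := intervalIntegral.integral_mul_deriv_eq_deriv_mul (a := 0) (b := 2 * Real.pi)
    (u := fun t : ℝ => Real.cos (k * (y - t))) (u' := fun t : ℝ => k * Real.sin (k * (y - t)))
    (v := fun t => dy φ (x, t)) (v' := fun t => dy (dy φ) (x, t))
    (fun t _ => cc k y t) (fun t _ => hdy (cdy1 hφ) x t) (hsin.intervalIntegrable _ _)
    (hyyc.intervalIntegrable _ _)
  have e2 := intervalIntegral.integral_mul_deriv_eq_deriv_mul (a := 0) (b := 2 * Real.pi)
    (u := fun t : ℝ => k * Real.sin (k * (y - t)))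
    (u' := fun t : ℝ => -((k : ℝ) ^ 2 * Real.cos (k * (y - t))))
    (v := fun t => φ (x, t)) (v' := fun t => dy φ (x, t))
    (fun t _ => ss k y t) (fun t _ => hdy h1 x t)
    ((continuous_const.mul hcos).neg.intervalIntegrable _ _)
    (hyc.intervalIntegrable _ _)
  have p1 : dy φ (x, 2 * Real.pi) = dy φ (x, 0) := by
    have := dy_per h1 hp x 0
    rwa [zero_add] at this
  have p2 : φ (x, 2 * Real.pi) = φ (x, 0) := by
    have := hp x 0
    rwa [zero_add] at this
  rw [per_cos, p1] at e1
  rw [per_sin, p2] at e2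
  rw [e2] at e1
  have e3 : ∫ t in (0 : ℝ)..(2 * Real.pi), dy (dy φ) (x, t) * Real.cos (k * (y - t)) =
      ∫ t in (0 : ℝ)..(2 * Real.pi), Real.cos (k * (y - t)) * dy (dy φ) (x, t) :=
    intervalIntegral.integral_congr fun t _ => mul_comm _ _
  have e4 : ∫ t in (0 : ℝ)..(2 * Real.pi), -((k : ℝ) ^ 2 * Real.cos (k * (y - t))) * φ (x, t) =
      -((k : ℝ) ^ 2 * ∫ t in (0 : ℝ)..(2 * Real.pi), φ (x, t) * Real.cos (k * (y - t))) := by
    rw [← intervalIntegral.integral_const_mul, ← intervalIntegral.integral_neg]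
    refine intervalIntegral.integral_congr fun t _ => ?_
    ring
  rw [e3, e1, e4]
  ring

theorem fm_cos (φ : ℝ × ℝ → ℝ) (hφ : Continuous φ) (k : ℕ) (x y : ℝ) :
    ∫ t in (0 : ℝ)..(2 * Real.pi), φ (x, t) * Real.cos (k * (y - t)) =
      (∫ t in (0 : ℝ)..(2 * Real.pi), φ (x, t) * Real.cos (k * t)) * Real.cos (k * y) +
      (∫ t in (0 : ℝ)..(2 * Real.pi), φ (x, t) * Real.sin (k * t)) * Real.sin (k * y) := by
  have hpc : Continuous (fun t : ℝ => φ (x, t)) := hφ.comp (Continuous.prodMk_right x)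
  rw [← intervalIntegral.integral_mul_const, ← intervalIntegral.integral_mul_const,
    ← intervalIntegral.integral_add]
  · refine intervalIntegral.integral_congr fun t _ => ?_
    show φ (x, t) * Real.cos (k * (y - t)) = φ (x, t) * Real.cos (k * t) * Real.cos (k * y) +
      φ (x, t) * Real.sin (k * t) * Real.sin (k * y)
    rw [mul_sub, Real.cos_sub]
    ring
  · apply Continuous.intervalIntegrable
    fun_prop
  · apply Continuous.intervalIntegrable
    fun_prop

/-- the constant -/
def ck (k : ℕ) : ℝ := if k = 0 then 1 / (2 * Real.pi) else 1 / Real.pi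

theorem ck_ne (k : ℕ) : ck k ≠ 0 := by
  unfold ck
  have := Real.pi_pos
  split_ifs <;> positivity

theorem fm_zero {φ : ℝ × ℝ → ℝ} (hφ : Continuous φ) {k : ℕ} (hk : k ≠ 0) {x : ℝ}
    (h : ∀ y, FM φ k x y = 0) :
    (∫ t in (0 : ℝ)..(2 * Real.pi), φ (x, t) * Real.cos (k * t)) = 0 ∧
      (∫ t in (0 : ℝ)..(2 * Real.pi), φ (x, t) * Real.sin (k * t)) = 0 := by
  have h1 : ∀ y, (∫ t in (0 : ℝ)..(2 * Real.pi), φ (x, t) * Real.cos (k * t)) * Real.cos (k * y) +
      (∫ t in (0 : ℝ)..(2 * Real.pi), φ (x, t) * Real.sin (k * t)) * Real.sin (k * y) = 0 := by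
    intro y
    rw [← fm_cos φ hφ k x y]
    have := h y
    unfold FM at this
    rcases mul_eq_zero.1 this with h2 | h2
    · exact absurd h2 (ck_ne k)
    · exact h2
  have hk' : (k : ℝ) ≠ 0 := Nat.cast_ne_zero.2 hk
  refine ⟨?_, ?_⟩
  · have := h1 0
    simpa using this
  · have := h1 (Real.pi / 2 / k)
    rw [mul_div_cancel₀ _ hk', Real.cos_pi_div_two, Real.sin_pi_div_two] at this
    simpa using this

/-- the slice as a continuous function on the circle -/
theorem slice {φ : ℝ × ℝ → ℝ} (hφ : Continuous φ)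
    (hp : ∀ x y, φ (x, y + 2 * Real.pi) = φ (x, y)) (x : ℝ) :
    ∃ f : C(AddCircle (2 * Real.pi), ℂ), ∀ t : ℝ, f (t : AddCircle (2 * Real.pi)) = (φ (x, t) : ℂ) := by
  have h1 : Function.Periodic (fun t : ℝ => ((φ (x, t) : ℝ) : ℂ)) (2 * Real.pi) := by
    intro t
    simp only [hp]
  have h2 : Continuous (fun t : ℝ => ((φ (x, t) : ℝ) : ℂ)) :=
    Complex.continuous_ofReal.comp (hφ.comp (Continuous.prodMk_right x))
  refine ⟨⟨h1.lift, ?_⟩, fun t => h1.lift_coe t⟩
  exact h2.quotient_liftOn' _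

theorem expsum (j : ℤ) (y t : ℝ) :
    Complex.exp (Complex.I * j * ((y : ℂ) - t)) + Complex.exp (Complex.I * (-j : ℤ) * ((y : ℂ) - t)) =
      ((2 * Real.cos (j * (y - t)) : ℝ) : ℂ) := by
  have h1 : Complex.I * (j : ℂ) * ((y : ℂ) - t) = ((j * (y - t) : ℝ) : ℂ) * Complex.I := by
    push_cast
    ring
  have h2 : Complex.I * ((-j : ℤ) : ℂ) * ((y : ℂ) - t) = -((j * (y - t) : ℝ) : ℂ) * Complex.I := by
    push_cast
    ring
  have h3 := Complex.two_cos ((j * (y - t) : ℝ) : ℂ)
  rw [h1, h2, ← h3, ← Complex.ofReal_cos]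
  push_cast
  rfl

theorem coef {φ : ℝ × ℝ → ℝ} (x : ℝ) [Fact (0 < 2 * Real.pi)]
    (f : C(AddCircle (2 * Real.pi), ℂ))
    (hf : ∀ t : ℝ, f (t : AddCircle (2 * Real.pi)) = (φ (x, t) : ℂ)) (j : ℤ) (y : ℝ) :
    fourierCoeff f j • fourier j (y : AddCircle (2 * Real.pi)) = (1 / (2 * Real.pi) : ℝ) *
      ∫ t in (0 : ℝ)..(2 * Real.pi), Complex.exp (Complex.I * j * ((y : ℂ) - t)) * (φ (x, t) : ℂ) := by
  have hpi : (Real.pi : ℂ) ≠ 0 := Complex.ofReal_ne_zero.2 Real.pi_ne_zero
  rw [fourierCoeff_eq_intervalIntegral _ _ 0, zero_add, smul_eq_mul, Complex.real_smul, mul_assoc,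
    ← intervalIntegral.integral_mul_const]
  congr 1
  refine intervalIntegral.integral_congr fun t _ => ?_
  show fourier (-j) (t : AddCircle (2 * Real.pi)) • f (t : AddCircle (2 * Real.pi)) *
    fourier j (y : AddCircle (2 * Real.pi)) = _
  rw [hf, fourier_coe_apply, fourier_coe_apply, smul_eq_mul, mul_right_comm, ← Complex.exp_add]
  congr 2
  push_cast
  field_simp
  ring

theorem fou : S_FOU := by
  intro φ V hφ hV hp he
  have h1 : ContDiff ℝ 1 φ := hφ.of_le (by norm_num)
  refine ⟨?_, ?_, ?_, ?_, ?_⟩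
  · intro k x y
    unfold FM
    refine HasDerivAt.const_mul _ ?_
    refine par (fun p => φ p * Real.cos (k * (y - p.2))) (fun p => dx φ p * Real.cos (k * (y - p.2)))
      ?_ ?_ ?_ _ _ _
    · have := hφ.continuous
      fun_prop
    · have := cdx h1
      fun_prop
    · intro x t
      exact (hdx h1 x t).mul_const (Real.cos (k * (y - t)))
  · intro k x y
    have h2 : HasDerivAt (fun s => FM (dx φ) k s y) (FM (dx (dx φ)) k x y) x := by
      unfold FM
      refine HasDerivAt.const_mul _ ?_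
      refine par (fun p => dx φ p * Real.cos (k * (y - p.2)))
        (fun p => dx (dx φ) p * Real.cos (k * (y - p.2))) ?_ ?_ ?_ _ _ _
      · have := cdx h1
        fun_prop
      · have := cdx (cdx1 hφ)
        fun_prop
      · intro x t
        exact (hdx (cdx1 hφ) x t).mul_const (Real.cos (k * (y - t)))
    have h3 : FM (dx (dx φ)) k x y = ((k : ℝ) ^ 2 - V x) * FM φ k x y := by
      unfold FM
      have hyyc : Continuous (fun t : ℝ => dy (dy φ) (x, t)) :=
        (cdy (cdy1 hφ)).comp (Continuous.prodMk_right x)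
      have hpc : Continuous (fun t : ℝ => φ (x, t)) :=
        hφ.continuous.comp (Continuous.prodMk_right x)
      have e1 : ∫ t in (0 : ℝ)..(2 * Real.pi), dx (dx φ) (x, t) * Real.cos (k * (y - t)) =
          -(∫ t in (0 : ℝ)..(2 * Real.pi), dy (dy φ) (x, t) * Real.cos (k * (y - t))) -
          V x * ∫ t in (0 : ℝ)..(2 * Real.pi), φ (x, t) * Real.cos (k * (y - t)) := by
        rw [← intervalIntegral.integral_const_mul, ← intervalIntegral.integral_neg,
          ← intervalIntegral.integral_sub]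
        · refine intervalIntegral.integral_congr fun t _ => ?_
          show dx (dx φ) (x, t) * Real.cos (k * (y - t)) =
            -(dy (dy φ) (x, t) * Real.cos (k * (y - t))) - V x * (φ (x, t) * Real.cos (k * (y - t)))
          have := he x t
          linear_combination Real.cos (k * (y - t)) * this
        · apply Continuous.intervalIntegrable
          fun_prop
        · apply Continuous.intervalIntegrable
          fun_prop
      rw [e1, parts hφ hp]
      ring
    rw [← h3]
    exact h2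
  · intro k x
    refine ⟨ck k * ∫ t in (0 : ℝ)..(2 * Real.pi), φ (x, t) * Real.cos (k * t),
      ck k * ∫ t in (0 : ℝ)..(2 * Real.pi), φ (x, t) * Real.sin (k * t), fun y => ?_⟩
    show ck k * _ = _
    rw [fm_cos φ hφ.continuous k x y]
    ring
  · intro k x y M hM
    have hM0 : 0 ≤ M := (abs_nonneg _).trans (hM 0)
    have hpi := Real.pi_pos
    have e1 : ‖∫ t in (0 : ℝ)..(2 * Real.pi), φ (x, t) * Real.cos (k * (y - t))‖ ≤
        M * |2 * Real.pi - 0| := by
      apply intervalIntegral.norm_integral_le_of_norm_le_const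
      intro t _
      rw [norm_mul]
      calc ‖φ (x, t)‖ * ‖Real.cos (k * (y - t))‖ ≤ M * 1 :=
            mul_le_mul (hM t) (Real.abs_cos_le_one _) (norm_nonneg _) hM0
        _ = M := mul_one M
    rw [sub_zero, abs_of_pos (by positivity), Real.norm_eq_abs] at e1
    show |ck k * _| ≤ _
    rw [abs_mul]
    have e2 : |ck k| ≤ 1 / Real.pi := by
      unfold ck
      split_ifs
      · rw [abs_of_pos (by positivity)]
        apply one_div_le_one_div_of_le hpi
        linarith
      · rw [abs_of_pos (by positivity)]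
    calc |ck k| * |∫ t in (0 : ℝ)..(2 * Real.pi), φ (x, t) * Real.cos (k * (y - t))| ≤
          (1 / Real.pi) * (M * (2 * Real.pi)) :=
          mul_le_mul e2 e1 (abs_nonneg _) (by positivity)
      _ = 2 * M := by
          field_simp
  · intro n x hn y
    have : Fact (0 < 2 * Real.pi) := ⟨by positivity⟩
    obtain ⟨f, hf⟩ := slice hφ.continuous hp x
    have hpc : Continuous (fun t : ℝ => φ (x, t)) :=
      hφ.continuous.comp (Continuous.prodMk_right x)
    have hco := coef (φ := φ) x f hf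
    have hsum : ∀ (k : ℕ), fourierCoeff f (k : ℤ) • fourier (k : ℤ) (y : AddCircle (2 * Real.pi)) +
        fourierCoeff f (-(k : ℤ)) • fourier (-(k : ℤ)) (y : AddCircle (2 * Real.pi)) =
        (((1 / Real.pi) * ∫ t in (0 : ℝ)..(2 * Real.pi), φ (x, t) * Real.cos (k * (y - t)) : ℝ) : ℂ) := by
      intro k
      rw [hco, hco, ← mul_add, ← intervalIntegral.integral_add]
      · have e1 : ∀ t : ℝ, Complex.exp (Complex.I * ((k : ℤ) : ℂ) * ((y : ℂ) - t)) * (φ (x, t) : ℂ) +
            Complex.exp (Complex.I * ((-(k : ℤ) : ℤ) : ℂ) * ((y : ℂ) - t)) * (φ (x, t) : ℂ) =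
            ((2 * (φ (x, t) * Real.cos (k * (y - t))) : ℝ) : ℂ) := by
          intro t
          rw [← add_mul, expsum]
          push_cast
          ring
        simp only [e1]
        rw [intervalIntegral.integral_ofReal, intervalIntegral.integral_const_mul]
        rw [← Complex.ofReal_mul]
        congr 1
        field_simp
      · apply Continuous.intervalIntegrable
        have : Continuous (fun t : ℝ => ((φ (x, t) : ℝ) : ℂ)) := Complex.continuous_ofReal.comp hpc
        fun_prop
      · apply Continuous.intervalIntegrable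
        have : Continuous (fun t : ℝ => ((φ (x, t) : ℝ) : ℂ)) := Complex.continuous_ofReal.comp hpc
        fun_prop
    have hz : ∀ j : ℤ, j ∉ Finset.Icc (-(n : ℤ)) n → fourierCoeff f j = 0 := by
      intro j hj
      have h2 : n < j.natAbs := by
        rw [Finset.mem_Icc] at hj
        omega
      obtain ⟨h3, h4⟩ := fm_zero hφ.continuous (by omega) (hn j.natAbs h2)
      have h5 := hco j 0
      rw [show ((0 : ℝ) : AddCircle (2 * Real.pi)) = 0 from rfl, fourier_eval_zero, smul_eq_mul,
        mul_one] at h5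
      rw [h5]
      have h7 : (∫ t in (0 : ℝ)..(2 * Real.pi), φ (x, t) * Real.cos (j * t)) = 0 ∧
          (∫ t in (0 : ℝ)..(2 * Real.pi), φ (x, t) * Real.sin (j * t)) = 0 := by
        rcases Int.natAbs_eq j with h | h
        · have h8 : (j : ℝ) = (j.natAbs : ℝ) := by
            rw [← Int.cast_natCast, ← h]
          rw [h8]
          exact ⟨h3, h4⟩
        · have h8 : (j : ℝ) = -(j.natAbs : ℝ) := by
            rw [← Int.cast_natCast, ← Int.cast_neg, ← h]
          rw [h8]
          refine ⟨?_, ?_⟩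
          · refine Eq.trans (intervalIntegral.integral_congr fun t _ => ?_) h3
            show φ (x, t) * Real.cos (-(j.natAbs : ℝ) * t) = φ (x, t) * Real.cos ((j.natAbs : ℝ) * t)
            rw [neg_mul, Real.cos_neg]
          · rw [← neg_eq_zero, ← intervalIntegral.integral_neg]
            refine Eq.trans (intervalIntegral.integral_congr fun t _ => ?_) h4
            show -(φ (x, t) * Real.sin (-(j.natAbs : ℝ) * t)) =
              φ (x, t) * Real.sin ((j.natAbs : ℝ) * t)
            rw [neg_mul, Real.sin_neg]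
            ring
      have e1 : ∀ t : ℝ, Complex.exp (Complex.I * (j : ℂ) * (((0 : ℝ) : ℂ) - t)) * (φ (x, t) : ℂ) =
          ((φ (x, t) * Real.cos (j * t) : ℝ) : ℂ) -
          Complex.I * ((φ (x, t) * Real.sin (j * t) : ℝ) : ℂ) := by
        intro t
        have e2 : Complex.I * (j : ℂ) * (((0 : ℝ) : ℂ) - t) = ((-(j * t) : ℝ) : ℂ) * Complex.I := by
          push_cast
          ring
        rw [e2, Complex.exp_mul_I, ← Complex.ofReal_cos, ← Complex.ofReal_sin, Real.cos_neg,
          Real.sin_neg]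
        push_cast
        ring
      simp only [e1]
      rw [intervalIntegral.integral_sub, intervalIntegral.integral_const_mul,
        intervalIntegral.integral_ofReal, intervalIntegral.integral_ofReal, h7.1, h7.2]
      · simp
      · apply Continuous.intervalIntegrable
        apply Complex.continuous_ofReal.comp
        fun_prop
      · apply Continuous.intervalIntegrable
        refine continuous_const.mul (Complex.continuous_ofReal.comp ?_)
        fun_prop
    have hs : Summable (fourierCoeff f) := summable_of_ne_finset_zero (s := Finset.Icc (-(n : ℤ)) n)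
      fun j hj => hz j hj
    have h6 := (has_pointwise_sum_fourier_series_of_summable hs (y : AddCircle (2 * Real.pi))).nat_add_neg
    have h7 := hasSum_sum_of_ne_finset_zero (L := SummationFilter.unconditional ℕ) (f := fun k : ℕ =>
      fourierCoeff f (k : ℤ) • fourier (k : ℤ) (y : AddCircle (2 * Real.pi)) +
        fourierCoeff f (-(k : ℤ)) • fourier (-(k : ℤ)) (y : AddCircle (2 * Real.pi)))
      (s := Finset.range (n + 1)) (by
        intro k hk
        rw [Finset.mem_range, not_lt] at hk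
        rw [hz k (by rw [Finset.mem_Icc]; omega), hz (-(k : ℤ)) (by rw [Finset.mem_Icc]; omega),
          zero_smul, zero_smul, add_zero])
    have h8 := h6.unique h7
    have h9 := hsum 0
    have h10 : fourierCoeff f 0 • fourier 0 (y : AddCircle (2 * Real.pi)) =
        ((FM φ 0 x y : ℝ) : ℂ) := by
      have e1 : fourierCoeff f 0 • fourier 0 (y : AddCircle (2 * Real.pi)) =
          (1 / 2 : ℂ) * (fourierCoeff f ((0 : ℕ) : ℤ) • fourier ((0 : ℕ) : ℤ) (y : AddCircle (2 * Real.pi)) +
        fourierCoeff f (-((0 : ℕ) : ℤ)) • fourier (-((0 : ℕ) : ℤ)) (y : AddCircle (2 * Real.pi))) := by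
        rw [Nat.cast_zero, neg_zero]
        ring
      rw [e1, h9]
      unfold FM
      rw [if_pos rfl]
      push_cast
      ring
    rw [Finset.sum_range_succ'] at h8 ⊢
    rw [hf, h10, h9] at h8
    have h11 : ∀ k : ℕ, FM φ (k + 1) x y = (1 / Real.pi) *
        ∫ t in (0 : ℝ)..(2 * Real.pi), φ (x, t) * Real.cos ((k + 1 : ℕ) * (y - t)) := by
      intro k
      unfold FM
      rw [if_neg (Nat.succ_ne_zero k)]
    have h12 : FM φ 0 x y = 1 / (2 * Real.pi) *
        ∫ t in (0 : ℝ)..(2 * Real.pi), φ (x, t) * Real.cos ((0 : ℕ) * (y - t)) := by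
      unfold FM
      rw [if_pos rfl]
    have h13 : (φ (x, y) : ℂ) + ((FM φ 0 x y : ℝ) : ℂ) =
        ((∑ k ∈ Finset.range n, FM φ (k + 1) x y + 2 * FM φ 0 x y : ℝ) : ℂ) := by
      rw [h8]
      rw [Finset.sum_congr rfl (fun k _ => hsum (k + 1))]
      rw [← Complex.ofReal_sum, ← Complex.ofReal_add]
      congr 1
      rw [Finset.sum_congr rfl (fun k _ => h11 k), h12]
      ring
    have h14 : φ (x, y) + FM φ 0 x y = ∑ k ∈ Finset.range n, FM φ (k + 1) x y + 2 * FM φ 0 x y := by
      exact_mod_cast h13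
    linarith

end Pool.Agent.Y454.NL
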